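import Pool.Agent.Run7.h151.FR.Upper
import Pool.Agent.Y911.AB.Main
import Pool.Agent.N906.RS.Asy

set_option autoImplicit false

/-!
# The lower bound and the limits
-/

namespace Pool.Agent.Run7.h151.FR

open Finset Filter Topology
open Pool.Agent.N906.KG (S_UPU S_LOJ Tri)
open Pool.Agent.Y911.AA (viol)

/-- the exceptions of all heights -/
def ExcA (M Y : ℝ) (p : ℕ × ℕ) : Prop :=
  0 < p.1 ∧ p.1 ≤ p.2 ∧ Nat.Coprime p.1 p.2 ∧ (rad3 p : ℝ) ≤ Real.exp Y ∧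
    (rad3 p : ℝ) ^ M ≤ ((p.1 + p.2 : ℕ) : ℝ)

theorem exc_finite (M Y Z : ℝ) : {p | Exc M Y Z p}.Finite := by
  refine Set.Finite.subset (Finset.finite_toSet
    ((range (⌊Real.exp Z⌋₊ + 1)) ×ˢ (range (⌊Real.exp Z⌋₊ + 1)))) ?_
  rintro ⟨a, b⟩ ⟨h1, h2, h3, h4, h5, h6⟩
  simp only at h1 h2 h6
  have h7 : a + b ≤ ⌊Real.exp Z⌋₊ := Nat.le_floor h6
  simp only [Finset.coe_product, Finset.coe_range, Set.mem_prod, Set.mem_Iio]
  omega

theorem excA_finite (M Y : ℝ) : {p | ExcA M Y p}.Finite :=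
  (Pool.Agent.Y911.AB.triples_finite' (Real.exp Y)).subset fun _ hp =>
    ⟨hp.1, hp.2.1, hp.2.2.1, hp.2.2.2.1⟩

/-- **The upper bound for all heights.** -/
theorem upper_all (h1 : S_UPU ℚ 3 1) : ∃ M₀ : ℝ, 1 / 3 < M₀ ∧ M₀ < 3 / 7 ∧
    ∀ M : ℝ, 1 / 3 < M → M < M₀ → ∀ ε : ℝ, 0 < ε → ∀ᶠ Y : ℝ in atTop, ∀ E : Finset (ℕ × ℕ),
      (∀ p ∈ E, ExcA M Y p) →
      (E.card : ℝ) ≤ Real.exp ((1 - M) * Y + (1 + ε) * √(24 * (3 * M - 1) * Y / Real.log Y)) := by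
  classical
  obtain ⟨M₀, hM0, hM1, hup⟩ := Pool.Agent.Y911.AB.upper_exc
  refine ⟨M₀, hM0, by linarith, fun M hM hMM ε hε => ?_⟩
  obtain ⟨C, hC, hlarge⟩ := hup M₀ hM0 le_rfl ((M₀ - M) / 2) (by linarith)
  have t1 : Tendsto (fun Y : ℝ => (M₀ - M) / 2 * Y) atTop atTop :=
    tendsto_id.const_mul_atTop (by linarith)
  filter_upwards [upper h1 M₀ hM (by linarith) (half_pos hε),
    ev_small (c := 24 * (3 * M - 1)) (by linarith) (ε / 2) 0 (half_pos hε),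
    t1.eventually_ge_atTop (Real.log C), eventually_ge_atTop (1 : ℝ)] with Y hu hsm hC1 hY1
  intro E hE
  have hY0 : 0 < Y := by linarith
  obtain ⟨S, hS⟩ : ∃ S : ℝ, S = √(24 * (3 * M - 1) * Y / Real.log Y) := ⟨_, rfl⟩
  have hS0 : 0 ≤ S := by rw [hS]; exact Real.sqrt_nonneg _
  have hu' := fun E' => hu E'
  rw [← hS] at hsm hu' ⊢
  obtain ⟨E1, hE1⟩ : ∃ E1 : Finset (ℕ × ℕ), E1 = E.filter
    (fun p => ((p.1 + p.2 : ℕ) : ℝ) ≤ Real.exp (M₀ * Y)) := ⟨_, rfl⟩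
  obtain ⟨E2, hE2⟩ : ∃ E2 : Finset (ℕ × ℕ), E2 = E.filter
    (fun p => ¬ ((p.1 + p.2 : ℕ) : ℝ) ≤ Real.exp (M₀ * Y)) := ⟨_, rfl⟩
  have hc : (E.card : ℝ) = E1.card + E2.card := by
    rw [hE1, hE2]
    exact_mod_cast (card_filter_add_card_filter_not _).symm
  have b1 : (E1.card : ℝ) ≤ Real.exp ((1 - M) * Y + (1 + ε / 2) * S) := by
    refine hu' E1 fun p hp => ?_
    rw [hE1, mem_filter] at hp
    obtain ⟨g1, g2, g3, g4, g5⟩ := hE p hp.1
    exact ⟨g1, g2, g3, g4, g5, hp.2⟩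
  have b2 : (E2.card : ℝ) ≤ Real.exp ((1 - M) * Y) := by
    have hX : (1 : ℝ) ≤ Real.exp Y := Real.one_le_exp hY0.le
    have h2 := hlarge (Real.exp Y) hX
    have h3 : E2.card ≤ (viol M₀ (Real.exp Y)).ncard := by
      rw [← Set.ncard_coe_finset]
      refine Set.ncard_le_ncard ?_ ((Pool.Agent.Y911.AB.triples_finite' (Real.exp Y)).subset
        fun _ hp => hp.1)
      intro p hp
      rw [mem_coe, hE2, mem_filter] at hp
      obtain ⟨hpE, hp2⟩ := hp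
      obtain ⟨g1, g2, g3, g4, g5⟩ := hE p hpE
      refine ⟨⟨g1, g2, g3, g4⟩, ?_⟩
      push Not at hp2
      refine le_trans ?_ hp2.le
      have hr0 : (0 : ℝ) ≤ rad3 p := by positivity
      calc (rad3 p : ℝ) ^ M₀ ≤ (Real.exp Y) ^ M₀ := Real.rpow_le_rpow hr0 g4 (by linarith)
        _ = Real.exp (M₀ * Y) := by rw [← Real.exp_mul, mul_comm]
    have h4 : (E2.card : ℝ) ≤ ((viol M₀ (Real.exp Y)).ncard : ℝ) := by exact_mod_cast h3
    refine (h4.trans h2).trans ?_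
    rw [← Real.exp_mul, ← Real.exp_log hC, ← Real.exp_add]
    refine Real.exp_le_exp.2 ?_
    have : (1 - M) * Y = Y * (1 - M₀ + (M₀ - M) / 2) + (M₀ - M) / 2 * Y := by ring
    linarith
  have b3 : Real.exp ((1 - M) * Y) ≤ Real.exp ((1 - M) * Y + (1 + ε / 2) * S) := by
    refine Real.exp_le_exp.2 ?_
    have : 0 ≤ (1 + ε / 2) * S := by positivity
    linarith
  have b4 : (E.card : ℝ) ≤ (Y + 5) * Real.exp ((1 - M) * Y + (1 + ε / 2) * S) := by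
    have := Real.exp_pos ((1 - M) * Y + (1 + ε / 2) * S)
    nlinarith
  refine b4.trans ?_
  have e5 : Y + 5 = Real.exp (Real.log (Y + 5)) := (Real.exp_log (by linarith)).symm
  rw [e5, ← Real.exp_add]
  refine Real.exp_le_exp.2 ?_
  linarith

/-- **The lower bound.** -/
theorem lower (h2 : S_LOJ ℚ) {M A ε : ℝ} (hM : 1 / 3 < M) (hM2 : M < 3 / 7) (hA : M ≤ A)
    (hε : 0 < ε) (hε1 : ε < 1) : ∀ᶠ Y : ℝ in atTop,
      Real.exp ((1 - M) * Y + (1 - ε) * √(24 * (3 * M - 1) * Y / Real.log Y)) ≤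
        (({p | Exc M (Y + Real.log 2 / M) (A * (Y + Real.log 2 / M)) p} : Set (ℕ × ℕ)).ncard : ℝ) := by
  classical
  have hM0 : 0 < M := by linarith
  obtain ⟨i1, i2⟩ := inv_bounds hM hM2
  obtain ⟨a, ha⟩ : ∃ a : ℝ, a = 1 / (3 * M) := ⟨_, rfl⟩
  have ha0 : 0 < a := by rw [ha]; positivity
  have haM : 3 * a * M = 1 := by rw [ha]; field_simp
  have ha3 : 3 * a = 1 / M := by rw [ha]; field_simp
  have hsum : ∑ _l : Fin 3, a = 1 / M := by
    rw [sum_const, card_univ, Fintype.card_fin, nsmul_eq_mul, ← ha3]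
    norm_num
  obtain ⟨X₀, hX₀, hlo⟩ := Pool.Agent.N348.QP.lo h2 (A := fun _ => a) (fun _ => ha0)
    (fun _ => by linarith) (by rw [hsum]; linarith) (by rw [hsum]; linarith)
    (half_pos hε) (by linarith)
  filter_upwards [ev_small (c := 24 * (3 * M - 1)) (by linarith) (ε / 2) 0 (half_pos hε),
    eventually_ge_atTop (X₀ / M), eventually_ge_atTop (3 : ℝ)] with Y hsm hY1 hY3
  have hY0 : 0 < Y := by linarith
  obtain ⟨S, hS⟩ : ∃ S : ℝ, S = √(24 * (3 * M - 1) * Y / Real.log Y) := ⟨_, rfl⟩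
  have hS0 : 0 ≤ S := by rw [hS]; exact Real.sqrt_nonneg _
  rw [← hS] at hsm ⊢
  have hMY : X₀ ≤ M * Y := by rw [div_le_iff₀ hM0] at hY1; linarith
  have hMY1 : 1 < M * Y := by linarith
  have h3 := hlo (M * Y) hMY
  rw [hsum] at h3
  have hs : S ≤ ∑ _l : Fin 3, √(8 * (1 - a) * (M * Y) / Real.log (M * Y)) := by
    rw [sum_const, card_univ, Fintype.card_fin, nsmul_eq_mul]
    have e1 : ((3 : ℕ) : ℝ) * √(8 * (1 - a) * (M * Y) / Real.log (M * Y)) =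
        √(24 * (3 * M - 1) * Y / Real.log (M * Y)) := by
      have e2 : ((3 : ℕ) : ℝ) = √9 := by
        rw [show (9 : ℝ) = 3 ^ 2 by norm_num, Real.sqrt_sq (by norm_num)]
        norm_num
      rw [e2, ← Real.sqrt_mul (by norm_num)]
      congr 1
      rw [← mul_div_assoc]
      congr 1
      linear_combination (-24 * Y) * haM
    rw [e1, hS]
    refine Real.sqrt_le_sqrt ?_
    refine div_le_div_of_nonneg_left ?_ (Real.log_pos hMY1) ?_
    · have : 0 ≤ 24 * (3 * M - 1) := by linarith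
      positivity
    · refine Real.log_le_log (by linarith) ?_
      nlinarith
  have h4 : Real.exp ((1 - M) * Y + (1 - ε / 2) * S) ≤
      ((Tri (fun _ => a) (Real.exp (M * Y + Real.log 2))).ncard : ℝ) := by
    refine le_trans (Real.exp_le_exp.2 ?_) h3
    have e3 : (1 / M - 1) * (M * Y) = (1 - M) * Y := by field_simp
    rw [e3]
    have := mul_le_mul_of_nonneg_left hs (by linarith : 0 ≤ 1 - ε / 2)
    linarith
  -- the two orders
  obtain ⟨Y', hY'⟩ : ∃ Y' : ℝ, Y' = Y + Real.log 2 / M := ⟨_, rfl⟩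
  rw [← hY']
  have hY'0 : 0 ≤ Y' := by
    rw [hY']
    have : 0 < Real.log 2 := Real.log_pos (by norm_num)
    positivity
  have hMY' : M * Y + Real.log 2 = M * Y' := by rw [hY']; field_simp
  rw [hMY'] at h4
  have key : ∀ x y : ℕ, 0 < x → 0 < y → x ≤ y → Nat.Coprime x y →
      ((x + y : ℕ) : ℝ) ≤ Real.exp (M * Y') →
      Real.log (rad3 (x, y) : ℝ) ≤ 3 * a * Real.log ((x + y : ℕ) : ℝ) →
      Exc M Y' (A * Y') (x, y) := by
    intro x y hx hy hxy hco hc hr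
    have hc0 : (0 : ℝ) < ((x + y : ℕ) : ℝ) := by exact_mod_cast (by omega : 0 < x + y)
    have hr0 : (0 : ℝ) < rad3 (x, y) := by exact_mod_cast rad3_pos _
    have hlc : Real.log ((x + y : ℕ) : ℝ) ≤ M * Y' := by
      rwa [Real.log_le_iff_le_exp hc0]
    refine ⟨hx, hxy, hco, ?_, ?_, ?_⟩
    · rw [← Real.log_le_iff_le_exp hr0]
      have h5 : 3 * a * Real.log ((x + y : ℕ) : ℝ) ≤ 3 * a * (M * Y') :=
        mul_le_mul_of_nonneg_left hlc (by linarith)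
      have h6 : 3 * a * (M * Y') = Y' := by rw [← mul_assoc, haM, one_mul]
      linarith
    · rw [← Real.log_le_log_iff (Real.rpow_pos_of_pos hr0 _) hc0, Real.log_rpow hr0]
      have h5 : M * Real.log (rad3 (x, y) : ℝ) ≤ M * (3 * a * Real.log ((x + y : ℕ) : ℝ)) :=
        mul_le_mul_of_nonneg_left hr hM0.le
      have h6 : M * (3 * a * Real.log ((x + y : ℕ) : ℝ)) = Real.log ((x + y : ℕ) : ℝ) := by
        rw [← mul_assoc, mul_comm M, haM, one_mul]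
      linarith
    · refine hc.trans (Real.exp_le_exp.2 ?_)
      exact mul_le_mul_of_nonneg_right hA hY'0
  -- the radical of the triple
  have hrad : ∀ x y : ℕ, 0 < x → 0 < y →
      ((∏ p ∈ x.primeFactors, p : ℕ) : ℝ) ≤ ((x + y : ℕ) : ℝ) ^ a →
      ((∏ p ∈ y.primeFactors, p : ℕ) : ℝ) ≤ ((x + y : ℕ) : ℝ) ^ a →
      ((∏ p ∈ (x + y).primeFactors, p : ℕ) : ℝ) ≤ ((x + y : ℕ) : ℝ) ^ a →
      Real.log (rad3 (x, y) : ℝ) ≤ 3 * a * Real.log ((x + y : ℕ) : ℝ) := by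
    intro x y hx hy r1 r2 r3
    have hc0 : (0 : ℝ) < ((x + y : ℕ) : ℝ) := by exact_mod_cast (by omega : 0 < x + y)
    have hr0 : (0 : ℝ) < rad3 (x, y) := by exact_mod_cast rad3_pos _
    have h5 : rad3 (x, y) ≤ (∏ p ∈ x.primeFactors, p) * (∏ p ∈ y.primeFactors, p) *
        (∏ p ∈ (x + y).primeFactors, p) := by
      unfold rad3 Pool.Agent.H785R2.ABC.rad
      simp only
      have hpos : ∀ s : Finset ℕ, (∀ q ∈ s, 1 ≤ q) → 1 ≤ ∏ q ∈ s, q := fun s hs =>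
        Finset.one_le_prod' hs
      have hun : ∀ s t : Finset ℕ, (∀ q ∈ s, 1 ≤ q) → (∀ q ∈ t, 1 ≤ q) →
          ∏ q ∈ s ∪ t, q ≤ (∏ q ∈ s, q) * ∏ q ∈ t, q := by
        intro s t hs ht
        rw [← Finset.prod_union_inter]
        refine Nat.le_mul_of_pos_right _ (Nat.lt_of_lt_of_le Nat.zero_lt_one (hpos _ ?_))
        intro q hq
        exact hs q (mem_of_mem_inter_left hq)
      have hpf : ∀ n : ℕ, ∀ q ∈ n.primeFactors, 1 ≤ q := fun n q hq =>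
        (Nat.prime_of_mem_primeFactors hq).one_le
      rw [Nat.primeFactors_mul (by positivity) (by positivity),
        Nat.primeFactors_mul (by positivity) (by positivity)]
      refine (hun _ _ ?_ (hpf _)).trans (Nat.mul_le_mul_right _ (hun _ _ (hpf _) (hpf _)))
      intro q hq
      rcases mem_union.1 hq with h | h
      · exact hpf _ q h
      · exact hpf _ q h
    have h6 : (rad3 (x, y) : ℝ) ≤ (((x + y : ℕ) : ℝ) ^ a) ^ 3 := by
      have h7 : (rad3 (x, y) : ℝ) ≤ ((∏ p ∈ x.primeFactors, p : ℕ) : ℝ) *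
          ((∏ p ∈ y.primeFactors, p : ℕ) : ℝ) * ((∏ p ∈ (x + y).primeFactors, p : ℕ) : ℝ) := by
        exact_mod_cast h5
      refine h7.trans ?_
      have h8 : 0 < ((x + y : ℕ) : ℝ) ^ a := Real.rpow_pos_of_pos hc0 _
      calc ((∏ p ∈ x.primeFactors, p : ℕ) : ℝ) *
          ((∏ p ∈ y.primeFactors, p : ℕ) : ℝ) * ((∏ p ∈ (x + y).primeFactors, p : ℕ) : ℝ) ≤
          ((x + y : ℕ) : ℝ) ^ a * ((x + y : ℕ) : ℝ) ^ a * ((x + y : ℕ) : ℝ) ^ a := by
            refine mul_le_mul (mul_le_mul r1 r2 (by positivity) h8.le) r3 (by positivity)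
              (by positivity)
        _ = _ := by ring
    have h9 := Real.log_le_log hr0 h6
    rw [Real.log_pow, Real.log_rpow hc0] at h9
    push_cast at h9 ⊢
    linarith
  have hfin := exc_finite M Y' (A * Y')
  have hTfin := Pool.Agent.N348.QP.tri_finite (fun _ => a) (Real.exp (M * Y'))
  obtain ⟨T, hT⟩ : ∃ T : Set (ℕ × ℕ × ℕ), T = Tri (fun _ => a) (Real.exp (M * Y')) := ⟨_, rfl⟩
  rw [← hT] at h4 hTfin
  have hT1 : ({t | t ∈ T ∧ t.1 ≤ t.2.1} : Set (ℕ × ℕ × ℕ)).ncard ≤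
      ({p | Exc M Y' (A * Y') p} : Set (ℕ × ℕ)).ncard := by
    refine Set.ncard_le_ncard_of_injOn (fun t => (t.1, t.2.1)) ?_ ?_ hfin
    · rintro ⟨x, y, z⟩ ⟨ht, hle⟩
      rw [hT] at ht
      obtain ⟨g1, g2, g3, g4, g5, g6, g7, g8⟩ := ht
      simp only at g1 g2 g3 g4 g5 g6 g7 g8 hle
      subst g4
      exact key x y g1 g2 hle g3 g5 (hrad x y g1 g2 g6 g7 g8)
    · rintro ⟨x, y, z⟩ ⟨ht, -⟩ ⟨x', y', z'⟩ ⟨ht', -⟩ he
      rw [hT] at ht ht'
      have g4 := ht.2.2.2.1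
      have g4' := ht'.2.2.2.1
      simp only [Prod.mk.injEq] at he g4 g4'
      obtain ⟨e1, e2⟩ := he
      subst e1 e2 g4 g4'
      rfl
  have hT2 : ({t | t ∈ T ∧ t.2.1 ≤ t.1} : Set (ℕ × ℕ × ℕ)).ncard ≤
      ({p | Exc M Y' (A * Y') p} : Set (ℕ × ℕ)).ncard := by
    refine Set.ncard_le_ncard_of_injOn (fun t => (t.2.1, t.1)) ?_ ?_ hfin
    · rintro ⟨x, y, z⟩ ⟨ht, hle⟩
      rw [hT] at ht
      obtain ⟨g1, g2, g3, g4, g5, g6, g7, g8⟩ := ht
      simp only at g1 g2 g3 g4 g5 g6 g7 g8 hle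
      subst g4
      rw [Nat.add_comm] at g5 g6 g7 g8
      exact key y x g2 g1 hle g3.symm g5 (hrad y x g2 g1 g7 g6 g8)
    · rintro ⟨x, y, z⟩ ⟨ht, -⟩ ⟨x', y', z'⟩ ⟨ht', -⟩ he
      rw [hT] at ht ht'
      have g4 := ht.2.2.2.1
      have g4' := ht'.2.2.2.1
      simp only [Prod.mk.injEq] at he g4 g4'
      obtain ⟨e1, e2⟩ := he
      subst e1 e2 g4 g4'
      rfl
  have hTu : T.ncard ≤ 2 * ({p | Exc M Y' (A * Y') p} : Set (ℕ × ℕ)).ncard := by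
    have h5 : T ⊆ {t | t ∈ T ∧ t.1 ≤ t.2.1} ∪ {t | t ∈ T ∧ t.2.1 ≤ t.1} := by
      intro t ht
      rcases le_total t.1 t.2.1 with h | h
      · exact Or.inl ⟨ht, h⟩
      · exact Or.inr ⟨ht, h⟩
    have h6 := Set.ncard_le_ncard h5 ((hTfin.subset fun t ht => ht.1).union
      (hTfin.subset fun t ht => ht.1))
    have h7 := Set.ncard_union_le {t | t ∈ T ∧ t.1 ≤ t.2.1} {t | t ∈ T ∧ t.2.1 ≤ t.1}
    omega
  have hTu' : (T.ncard : ℝ) ≤ 2 * (({p | Exc M Y' (A * Y') p} : Set (ℕ × ℕ)).ncard : ℝ) := by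
    exact_mod_cast hTu
  have h8 : 2 * Real.exp ((1 - M) * Y + (1 - ε) * S) ≤
      Real.exp ((1 - M) * Y + (1 - ε / 2) * S) := by
    have e2 : (2 : ℝ) = Real.exp (Real.log 2) := (Real.exp_log (by norm_num)).symm
    nth_rewrite 1 [e2]
    rw [← Real.exp_add]
    refine Real.exp_le_exp.2 ?_
    have : Real.log 2 ≤ Real.log (Y + 5) := Real.log_le_log (by norm_num) (by linarith)
    linarith
  linarith

theorem ex_of_ev {P : ℝ → Prop} (h : ∀ᶠ Y : ℝ in atTop, P Y) :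
    ∃ X₀ : ℝ, 1 < X₀ ∧ ∀ X : ℝ, X₀ ≤ X → P X := by
  obtain ⟨a, ha⟩ := eventually_atTop.1 h
  exact ⟨max a 2, lt_of_lt_of_le (by norm_num) (le_max_right _ _),
    fun X hX => ha X ((le_max_left _ _).trans hX)⟩

/-- **The limit, `c ≤ X ^ A`.** -/
theorem lim_upTo (h1 : S_UPU ℚ 3 1) (h2 : S_LOJ ℚ) {M A : ℝ} (hM : 1 / 3 < M) (hM2 : M < 3 / 7)
    (hA : M ≤ A) :
    Tendsto (fun Y : ℝ => (Real.log (({p | Exc M Y (A * Y) p} : Set (ℕ × ℕ)).ncard : ℝ) -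
      (1 - M) * Y) / √(Y / Real.log Y)) atTop (𝓝 √(24 * (3 * M - 1))) := by
  have h := Pool.Agent.N906.RS.squeeze (e := 1 - M) (k := 3 * M - 1) (d := 1) (by linarith) one_pos
    (fun Y => (({p | Exc M Y (A * Y) p} : Set (ℕ × ℕ)).ncard : ℝ)) (Real.log 2 / M)
    (fun ε hε => by
      refine ex_of_ev ((upper h1 A hM hM2 hε).mono fun Y hY => ?_)
      have hfin := exc_finite M Y (A * Y)
      have := hY hfin.toFinset fun p hp => hfin.mem_toFinset.1 hp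
      rwa [← Set.ncard_eq_toFinset_card _ hfin] at this)
    (fun ε hε hε1 => ex_of_ev (lower h2 hM hM2 hA hε hε1))
  simpa only [one_mul, mul_one] using h

/-- **The limit, all heights.** -/
theorem lim_all (h1 : S_UPU ℚ 3 1) (h2 : S_LOJ ℚ) : ∃ M₀ : ℝ, 1 / 3 < M₀ ∧
    ∀ M : ℝ, 1 / 3 < M → M < M₀ →
    Tendsto (fun Y : ℝ => (Real.log (({p | ExcA M Y p} : Set (ℕ × ℕ)).ncard : ℝ) -
      (1 - M) * Y) / √(Y / Real.log Y)) atTop (𝓝 √(24 * (3 * M - 1))) := by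
  obtain ⟨M₀, h3, h4, hup⟩ := upper_all h1
  refine ⟨M₀, h3, fun M hM hMM => ?_⟩
  have h := Pool.Agent.N906.RS.squeeze (e := 1 - M) (k := 3 * M - 1) (d := 1) (by linarith) one_pos
    (fun Y => (({p | ExcA M Y p} : Set (ℕ × ℕ)).ncard : ℝ)) (Real.log 2 / M)
    (fun ε hε => by
      refine ex_of_ev ((hup M hM hMM ε hε).mono fun Y hY => ?_)
      have hfin := excA_finite M Y
      have := hY hfin.toFinset fun p hp => hfin.mem_toFinset.1 hp
      rwa [← Set.ncard_eq_toFinset_card _ hfin] at this)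
    (fun ε hε hε1 => ex_of_ev ((lower h2 (A := 1) hM (by linarith) (by linarith) hε hε1).mono
      fun Y hY => hY.trans (by
        refine Nat.cast_le.2 (Set.ncard_le_ncard ?_ (excA_finite _ _))
        intro p hp
        exact ⟨hp.1, hp.2.1, hp.2.2.1, hp.2.2.2.1, hp.2.2.2.2.1⟩)))
  simpa only [one_mul, mul_one] using h

end Pool.Agent.Run7.h151.FR
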