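import Mathlib

set_option autoImplicit false

/-!
# The exponents of the windows
-/

namespace Pool.Agent.Run7.h151.FR

open Filter Topology

/-- the gain of the window `m` -/
noncomputable def gain (M Y m : ℝ) : ℝ := max ((3 - 1 / M) * m - 6) (3 * m - 3 - Y)

lemma inv_bounds {M : ℝ} (h1 : 1 / 3 < M) (h2 : M < 3 / 7) : 7 / 3 < 1 / M ∧ 1 / M < 3 := by
  have h0 : 0 < M := by linarith
  constructor
  · rw [lt_div_iff₀ h0]; linarith
  · rw [div_lt_iff₀ h0]; linarith

theorem gain_bound {M Y m ε : ℝ} (h1 : 1 / 3 < M) (h2 : M < 3 / 7) (hε : 0 ≤ ε) (hε1 : ε ≤ 1)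
    (hY : 0 < Y) (hm : 3 ≤ m) :
    2 * m - gain M Y m + (1 + ε) * √(24 * gain M Y m / Real.log m) ≤
      (1 - M) * Y + 78 + (1 + ε) * √(24 * (3 * M - 1) * Y / Real.log m) := by
  obtain ⟨i1, i2⟩ := inv_bounds h1 h2
  have h0 : 0 < M := by linarith
  obtain ⟨i, hi⟩ : ∃ i : ℝ, i = 1 / M := ⟨_, rfl⟩
  have hiM : i * M = 1 := by rw [hi]; field_simp
  rw [← hi] at i1 i2
  have hlog : 1 ≤ Real.log m := by
    rw [Real.le_log_iff_exp_le (by linarith)]
    linarith [Real.exp_one_lt_d9]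
  obtain ⟨t, ht⟩ : ∃ t : ℝ, t = m - M * Y := ⟨_, rfl⟩
  have hmt : m = M * Y + t := by rw [ht]; ring
  have e1 : (3 - i) * m - 6 = (3 * M - 1) * Y + (3 - i) * t - 6 := by
    rw [hmt]
    linear_combination (-Y) * hiM
  have e2 : 3 * m - 3 - Y = (3 * M - 1) * Y + 3 * t - 3 := by
    rw [hmt]
    ring
  have g1 : 2 * m - gain M Y m ≤ (1 - M) * Y + 6 - |t| := by
    unfold gain
    rw [← hi]
    rcases le_or_gt 0 t with h | h
    · rw [abs_of_nonneg h]
      have := le_max_right ((3 - i) * m - 6) (3 * m - 3 - Y)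
      linarith
    · rw [abs_of_neg h]
      have := le_max_left ((3 - i) * m - 6) (3 * m - 3 - Y)
      have h3 : (i - 2) * t ≤ 0 := by nlinarith
      linarith
  have g2 : gain M Y m ≤ (3 * M - 1) * Y + 3 * |t| := by
    unfold gain
    rw [← hi]
    refine max_le ?_ ?_
    · rw [e1]
      have : (3 - i) * t ≤ 3 * |t| := by
        calc (3 - i) * t ≤ (3 - i) * |t| := mul_le_mul_of_nonneg_left (le_abs_self t) (by linarith)
          _ ≤ 3 * |t| := mul_le_mul_of_nonneg_right (by linarith) (abs_nonneg t)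
      linarith
    · rw [e2]
      linarith [le_abs_self t]
  have hk : 0 ≤ (3 * M - 1) * Y := mul_nonneg (by linarith) hY.le
  have g3 : √(24 * gain M Y m / Real.log m) ≤
      √(24 * (3 * M - 1) * Y / Real.log m) + √(72 * |t|) := by
    have e3 : 24 * gain M Y m / Real.log m ≤ 24 * (3 * M - 1) * Y / Real.log m + 72 * |t| := by
      have e4 : 24 * gain M Y m / Real.log m ≤
          (24 * (3 * M - 1) * Y + 72 * |t|) / Real.log m :=
        div_le_div_of_nonneg_right (by linarith) (by linarith)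
      refine e4.trans ?_
      rw [add_div]
      have : 72 * |t| / Real.log m ≤ 72 * |t| := div_le_self (by positivity) hlog
      linarith
    refine (Real.sqrt_le_sqrt e3).trans ?_
    have hA : 0 ≤ 24 * (3 * M - 1) * Y / Real.log m := div_nonneg (by linarith) (by linarith)
    have hB : 0 ≤ 72 * |t| := by positivity
    rw [Real.sqrt_le_left (by positivity)]
    nlinarith [Real.sq_sqrt hA, Real.sq_sqrt hB, Real.sqrt_nonneg (24 * (3 * M - 1) * Y / Real.log m),
      Real.sqrt_nonneg (72 * |t|), mul_nonneg (Real.sqrt_nonneg (24 * (3 * M - 1) * Y / Real.log m))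
      (Real.sqrt_nonneg (72 * |t|))]
  have g4 : 2 * √(72 * |t|) ≤ |t| + 72 := by
    have h3 : √(72 * |t|) = √72 * √|t| := Real.sqrt_mul (by norm_num) _
    have h4 : √72 ^ 2 = 72 := Real.sq_sqrt (by norm_num)
    have h5 : √|t| ^ 2 = |t| := Real.sq_sqrt (abs_nonneg t)
    rw [h3]
    nlinarith [sq_nonneg (√72 - √|t|)]
  have g5 : (1 + ε) * √(24 * gain M Y m / Real.log m) ≤
      (1 + ε) * √(24 * (3 * M - 1) * Y / Real.log m) + 2 * √(72 * |t|) := by
    calc (1 + ε) * √(24 * gain M Y m / Real.log m) ≤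
        (1 + ε) * (√(24 * (3 * M - 1) * Y / Real.log m) + √(72 * |t|)) :=
          mul_le_mul_of_nonneg_left g3 (by linarith)
      _ = (1 + ε) * √(24 * (3 * M - 1) * Y / Real.log m) + (1 + ε) * √(72 * |t|) := by ring
      _ ≤ _ := by
        have : (1 + ε) * √(72 * |t|) ≤ 2 * √(72 * |t|) :=
          mul_le_mul_of_nonneg_right (by linarith) (Real.sqrt_nonneg _)
        linarith
  linarith

/-- the conditions of the window -/
theorem gain_cond {M Y m δ : ℝ} (h1 : 1 / 3 < M) (h2 : M < 3 / 7) (hδ0 : 0 < δ)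
    (hδ : δ ≤ 1 / 3) (hδ2 : 2 * δ ≤ 3 - 1 / M) (hm : 6 ≤ δ * m)
    (hmY : m ≤ 3 / 7 * Y + 1) :
    δ * m ≤ gain M Y m ∧ gain M Y m ≤ (1 - δ) * m := by
  obtain ⟨i1, i2⟩ := inv_bounds h1 h2
  obtain ⟨i, hi⟩ : ∃ i : ℝ, i = 1 / M := ⟨_, rfl⟩
  rw [← hi] at i1 i2 hδ2
  have hm0 : 0 < m := by
    by_contra h
    push Not at h
    nlinarith
  unfold gain
  rw [← hi]
  constructor
  · refine le_trans ?_ (le_max_left _ _)
    have : 2 * δ * m ≤ (3 - i) * m := mul_le_mul_of_nonneg_right hδ2 hm0.le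
    linarith
  · refine max_le ?_ ?_
    · have : (3 - i) * m ≤ 2 / 3 * m := mul_le_mul_of_nonneg_right (by linarith) hm0.le
      have : 2 / 3 * m ≤ (1 - δ) * m := mul_le_mul_of_nonneg_right (by linarith) hm0.le
      linarith
    · have : (2 + δ) * m ≤ 7 / 3 * m := mul_le_mul_of_nonneg_right (by linarith) hm0.le
      linarith

/-- the logarithms of `Y` and `Y / 4` -/
theorem ev_log (ε : ℝ) (hε : 0 < ε) : ∀ᶠ Y : ℝ in atTop, 1 < Y ∧
    Real.log Y ≤ (1 + ε) * Real.log (Y / 4) := by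
  have h : Tendsto (fun Y : ℝ => ε * Real.log Y) atTop atTop :=
    Real.tendsto_log_atTop.const_mul_atTop hε
  filter_upwards [eventually_gt_atTop (1 : ℝ), h.eventually_ge_atTop ((1 + ε) * Real.log 4)]
    with Y h1 h2
  refine ⟨h1, ?_⟩
  rw [Real.log_div (by linarith) (by norm_num)]
  linarith

theorem sqrt_log_le {ε c Y m : ℝ} (hε : 0 ≤ ε) (hc : 0 ≤ c) (hY : 1 < Y)
    (hm : Real.log Y ≤ (1 + ε) * Real.log m) :
    √(c * Y / Real.log m) ≤ (1 + ε) * √(c * Y / Real.log Y) := by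
  have hl : 0 < Real.log Y := Real.log_pos hY
  have hlm : 0 < Real.log m := by
    by_contra h
    push Not at h
    nlinarith
  have h1 : c * Y / Real.log m ≤ (1 + ε) ^ 2 * (c * Y / Real.log Y) := by
    have h2 : c * Y / Real.log m ≤ (1 + ε) * (c * Y / Real.log Y) := by
      rw [← mul_div_assoc, div_le_div_iff₀ hlm hl]
      have h3 : 0 ≤ c * Y := mul_nonneg hc (by linarith)
      calc c * Y * Real.log Y ≤ c * Y * ((1 + ε) * Real.log m) :=
            mul_le_mul_of_nonneg_left hm h3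
        _ = _ := by ring
    refine h2.trans ?_
    have h4 : 0 ≤ c * Y / Real.log Y := div_nonneg (mul_nonneg hc (by linarith)) hl.le
    refine mul_le_mul_of_nonneg_right ?_ h4
    nlinarith
  calc √(c * Y / Real.log m) ≤ √((1 + ε) ^ 2 * (c * Y / Real.log Y)) := Real.sqrt_le_sqrt h1
    _ = (1 + ε) * √(c * Y / Real.log Y) := by
      rw [Real.sqrt_mul (sq_nonneg _), Real.sqrt_sq (by linarith)]

/-- the second order term is larger than every multiple of the logarithm -/
theorem ev_small {c : ℝ} (hc : 0 < c) (ε C : ℝ) (hε : 0 < ε) : ∀ᶠ Y : ℝ in atTop,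
    Real.log (Y + 5) + C ≤ ε * √(c * Y / Real.log Y) := by
  -- `log (Y + 5) + C ≤ 2 log Y`, and `4 (log Y) ^ 3 ≤ ε ^ 2 c Y`
  have h1 : Tendsto (fun Y : ℝ => Real.log Y ^ 3 / Y) atTop (𝓝 0) := by
    have := (isLittleO_log_rpow_atTop (r := 1 / 3) (by norm_num)).tendsto_div_nhds_zero
    have h2 := this.pow 3
    rw [zero_pow (by norm_num)] at h2
    refine h2.congr' ?_
    filter_upwards [eventually_gt_atTop (0 : ℝ)] with Y hY
    rw [div_pow, ← Real.rpow_natCast (Y ^ (1 / 3 : ℝ)), ← Real.rpow_mul hY.le]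
    norm_num
  have h3 : ∀ᶠ Y : ℝ in atTop, Real.log Y ^ 3 / Y < ε ^ 2 * c / 9 :=
    h1.eventually_lt_const (by positivity)
  have h4 : ∀ᶠ Y : ℝ in atTop, |C| + 2 ≤ Real.log Y :=
    Real.tendsto_log_atTop.eventually_ge_atTop _
  filter_upwards [h3, h4, eventually_gt_atTop (5 : ℝ)] with Y a1 a2 a3
  have hl : 0 < Real.log Y := Real.log_pos (by linarith)
  have b1 : Real.log (Y + 5) ≤ Real.log Y + Real.log 2 := by
    rw [← Real.log_mul (by linarith) (by norm_num)]
    exact Real.log_le_log (by linarith) (by linarith)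
  have b2 : Real.log 2 ≤ 1 := by linarith [Real.log_two_lt_d9]
  have b3 : Real.log (Y + 5) + C ≤ 3 * Real.log Y := by linarith [le_abs_self C]
  refine b3.trans ?_
  rw [div_lt_iff₀ (by linarith)] at a1
  have b4 : (3 * Real.log Y / ε) ^ 2 ≤ c * Y / Real.log Y := by
    rw [le_div_iff₀ hl, div_pow, div_mul_eq_mul_div, div_le_iff₀ (by positivity)]
    nlinarith
  have b5 : 3 * Real.log Y / ε ≤ √(c * Y / Real.log Y) := Real.le_sqrt_of_sq_le b4
  rw [div_le_iff₀ hε] at b5
  linarith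

end Pool.Agent.Run7.h151.FR
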