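import Pool.Agent.N348.QP_FINT
import Pool.Agent.N906.QP.Stm
import Pool.Agent.H785R2.ABC.Defs
import Pool.Agent.Run7.h151.FR.Elem

set_option autoImplicit false

/-!
# Pairs and points: the windows
-/

namespace Pool.Agent.Run7.h151.FR

open NumberField IsDedekindDomain Finset Filter Topology Pool.Agent.H691R3 Pool.Agent.W223.AK
open Pool.Agent.N906.KG Pool.Agent.N348.QP Pool.Agent.H813R3.Abc
open Pool.Agent.H785R2.ABC (rad)

/-- the radical of the triple `(a, b, a + b)` -/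
def rad3 (p : ℕ × ℕ) : ℕ := rad (p.1 * p.2 * (p.1 + p.2))

theorem rad3_pos (p : ℕ × ℕ) : 0 < rad3 p :=
  Finset.prod_pos fun _ hp => (Nat.prime_of_mem_primeFactors hp).pos

theorem supp_image {a b : ℕ} (ha : 0 < a) (hb : 0 < b) (hab : Nat.Coprime a b) {P : Fin 3 → Idl ℚ}
    (hP : IsP ∅ a3 ((a : ℚ) / b) P) (l : Fin 3) :
    (P l).support.image pr = (mm a b l).primeFactors := by
  classical
  have hm := mm_ne ha hb l
  have h1 : ∀ v, P l v ≠ 0 ↔ pr v ∣ mm a b l := by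
    intro v
    have h2 := hP.2 l v (Finset.notMem_empty v)
    rw [lam_eq3 ha hb hab] at h2
    have h3 := log_Nv_pos v
    have hfm : 0 < fv v ((mm a b l : ℕ) : ℚ) := (fv v).pos (by exact_mod_cast hm)
    constructor
    · intro h4
      by_contra h5
      rw [← fv_nat_eq_one] at h5
      rw [h5, Real.log_one, neg_zero] at h2
      rcases mul_eq_zero.1 h2.symm with h6 | h6
      · exact h4 (by exact_mod_cast h6)
      · exact h3.ne' h6
    · intro h4 h5
      rw [h5, Nat.cast_zero, zero_mul, neg_eq_zero] at h2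
      have h6 : fv v ((mm a b l : ℕ) : ℚ) = 1 := Real.eq_one_of_pos_of_log_eq_zero hfm h2
      rw [fv_nat_eq_one] at h6
      exact h6 h4
  ext p
  rw [Finset.mem_image, Nat.mem_primeFactors]
  constructor
  · rintro ⟨v, hv, rfl⟩
    rw [Finsupp.mem_support_iff] at hv
    exact ⟨pr_prime v, (h1 v).1 hv, hm⟩
  · rintro ⟨hp, hd, -⟩
    obtain ⟨v, rfl⟩ := exists_pr hp
    exact ⟨v, Finsupp.mem_support_iff.2 ((h1 v).2 hd), rfl⟩

/-- the radical of the triple as a sum over primes -/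
theorem tr_eq {a b : ℕ} (ha : 0 < a) (hb : 0 < b) (hab : Nat.Coprime a b) {P : Fin 3 → Idl ℚ}
    (hP : IsP ∅ a3 ((a : ℚ) / b) P) : tr P = Real.log (rad3 (a, b) : ℝ) := by
  classical
  have h2 : (sp P).image pr = (a * b * (a + b)).primeFactors := by
    have h3 : (sp P).image pr = univ.biUnion fun l => (mm a b l).primeFactors := by
      unfold sp
      rw [Finset.biUnion_image]
      exact Finset.biUnion_congr rfl fun l _ => supp_image ha hb hab hP l
    rw [h3]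
    ext p
    rw [Finset.mem_biUnion, Nat.primeFactors_mul (by positivity) (by positivity),
      Nat.primeFactors_mul (by positivity) (by positivity), Finset.mem_union, Finset.mem_union]
    constructor
    · rintro ⟨l, -, hl⟩
      fin_cases l
      · exact Or.inl (Or.inl hl)
      · exact Or.inl (Or.inr hl)
      · exact Or.inr hl
    · rintro ((h | h) | h)
      · exact ⟨0, mem_univ _, h⟩
      · exact ⟨1, mem_univ _, h⟩
      · exact ⟨2, mem_univ _, h⟩
  unfold tr rad3 rad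
  simp only
  rw [← h2, Finset.prod_image fun v _ w _ h => pr_inj h, Nat.cast_prod, Real.log_prod]
  · exact Finset.sum_congr rfl fun v _ => by rw [Nv_eq]
  · intro v _
    exact_mod_cast (pr_prime v).ne_zero

/-- **The windows.** -/
theorem window (h1 : S_UPU ℚ 3 1) {δ ε : ℝ} (hδ : 0 < δ) (hε : 0 < ε) :
    ∃ X₀ : ℝ, 1 < X₀ ∧ ∀ (X G : ℝ) (E : Finset (ℕ × ℕ)), X₀ ≤ X → δ * X ≤ G → G ≤ (1 - δ) * X →
      (∀ p ∈ E, 0 < p.1 ∧ p.1 ≤ p.2 ∧ Nat.Coprime p.1 p.2 ∧ X - 1 < Real.log p.2 ∧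
        Real.log p.2 ≤ X ∧ Real.log (rad3 p : ℝ) ≤ 3 * Real.log p.2 - G) →
      (E.card : ℝ) ≤ Real.exp (2 * X - G + (1 + ε) * √(24 * G / Real.log X)) := by
  classical
  obtain ⟨X₀, hX₀, h⟩ := h1 a3 ∅ δ ε al_a3 gd_a3 hδ hε
  refine ⟨X₀, hX₀, fun X G E hX hG1 hG2 hE => ?_⟩
  set φ : ℕ × ℕ → ℚ := fun t => (t.1 : ℚ) / t.2 with hφ
  have hinj : Set.InjOn φ (E : Set (ℕ × ℕ)) := by
    intro p hp q hq hh
    obtain ⟨g1, g2, g3, -⟩ := hE p hp
    obtain ⟨g1', g2', g3', -⟩ := hE q hq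
    obtain ⟨i1, i2⟩ := div_inj (by omega) (by omega) g3 g3' hh
    exact Prod.ext i1 i2
  have h2 := h X G (E.image φ) hX hG1 hG2 ?_
  · rw [Finset.card_image_of_injOn hinj] at h2
    have e : (8 * ((3 : ℕ) : ℝ) * G) = 24 * G := by push_cast; ring
    rwa [e] at h2
  · intro x hx
    obtain ⟨p, hp, rfl⟩ := Finset.mem_image.1 hx
    obtain ⟨g1, g2, g3, g4, g5, g6⟩ := hE p hp
    obtain ⟨a, b⟩ := p
    simp only at g1 g2 g3 g4 g5 g6
    have hb : 0 < b := by omega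
    have hOf := of_a3 g1 hb
    obtain ⟨P, hP⟩ := N954.KG.isP_exists al_a3 ∅ hOf
    have hhr := hr_eq g1 hb g3
    have hmax : max (a : ℝ) b = b := max_eq_right (by exact_mod_cast g2)
    rw [hmax] at hhr
    show Of a3 ((a : ℚ) / b) ∧ X - 1 < hr (aff ((a : ℚ) / b)) ∧ hr (aff ((a : ℚ) / b)) ≤ X ∧
      ∃ P, IsP ∅ a3 ((a : ℚ) / b) P ∧ tr P ≤ ((3 : ℕ) : ℝ) * hr (aff ((a : ℚ) / b)) - G
    rw [hhr]
    refine ⟨hOf, g4, g5, P, hP, ?_⟩
    rw [tr_eq g1 hb g3 hP]
    push_cast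
    exact g6

end Pool.Agent.Run7.h151.FR
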