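import Pool.Agent.Run7.h151.FR.Large
import Pool.Agent.Run7.h151.FR.Pts

set_option autoImplicit false

/-!
# The upper bound
-/

namespace Pool.Agent.Run7.h151.FR

open Finset Filter Topology
open Pool.Agent.N906.KG (S_UPU)

/-- the exceptions, with `c ≤ exp Z` -/
def Exc (M Y Z : ℝ) (p : ℕ × ℕ) : Prop :=
  0 < p.1 ∧ p.1 ≤ p.2 ∧ Nat.Coprime p.1 p.2 ∧ (rad3 p : ℝ) ≤ Real.exp Y ∧
    (rad3 p : ℝ) ^ M ≤ ((p.1 + p.2 : ℕ) : ℝ) ∧ ((p.1 + p.2 : ℕ) : ℝ) ≤ Real.exp Z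

theorem exc_pos {M Y Z : ℝ} {p : ℕ × ℕ} (h : Exc M Y Z p) : 0 < p.2 := by
  obtain ⟨h1, h2, -⟩ := h
  omega

theorem small_part {Y : ℝ} (hY : 0 ≤ Y) (E : Finset (ℕ × ℕ))
    (hE : ∀ p ∈ E, p.1 ≤ p.2 ∧ 0 < p.2 ∧ Real.log p.2 ≤ Y / 4) :
    (E.card : ℝ) ≤ 4 * Real.exp (Y / 2) := by
  obtain ⟨n, hn⟩ : ∃ n : ℕ, n = ⌊Real.exp (Y / 4)⌋₊ := ⟨_, rfl⟩
  have h1 : 1 ≤ Real.exp (Y / 4) := Real.one_le_exp (by linarith)
  have hn1 : (n : ℝ) ≤ Real.exp (Y / 4) := by rw [hn]; exact Nat.floor_le (by positivity)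
  have h2 : E ⊆ (range (n + 1)) ×ˢ (range (n + 1)) := by
    intro p hp
    obtain ⟨a1, a2, a3⟩ := hE p hp
    have h3 : p.2 ≤ n := by
      rw [hn]
      refine Nat.le_floor ?_
      rwa [Real.log_le_iff_le_exp (by exact_mod_cast a2)] at a3
    rw [mem_product, mem_range, mem_range]
    omega
  have h3 := card_le_card h2
  rw [card_product, card_range] at h3
  have h4 : (E.card : ℝ) ≤ ((n : ℝ) + 1) * (n + 1) := by exact_mod_cast h3
  refine h4.trans ?_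
  have h5 : Real.exp (Y / 2) = Real.exp (Y / 4) * Real.exp (Y / 4) := by
    rw [← Real.exp_add]
    congr 1
    ring
  rw [h5]
  nlinarith

theorem mid_part (h1 : S_UPU ℚ 3 1) {M ε : ℝ} (hM : 1 / 3 < M) (hM2 : M < 3 / 7) (hε : 0 < ε)
    (hε1 : ε ≤ 1) : ∀ᶠ Y : ℝ in atTop, ∀ E : Finset (ℕ × ℕ),
      (∀ p ∈ E, Exc M Y (3 / 7 * Y) p ∧ Y / 4 < Real.log p.2) →
      (E.card : ℝ) ≤ (Y + 1) * Real.exp ((1 - M) * Y + 78 +
        (1 + ε) * ((1 + ε) * √(24 * (3 * M - 1) * Y / Real.log Y))) := by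
  classical
  obtain ⟨i1, i2⟩ := inv_bounds hM hM2
  have hM0 : 0 < M := by linarith
  obtain ⟨δ, hδ⟩ : ∃ δ : ℝ, δ = min (1 / 3) ((3 - 1 / M) / 2) := ⟨_, rfl⟩
  have hδ0 : 0 < δ := by rw [hδ]; exact lt_min (by norm_num) (by linarith)
  have hδ1 : δ ≤ 1 / 3 := by rw [hδ]; exact min_le_left _ _
  have hδ2 : 2 * δ ≤ 3 - 1 / M := by
    have := min_le_right (1 / 3) ((3 - 1 / M) / 2)
    rw [← hδ] at this
    linarith
  obtain ⟨X₀, hX₀, hw⟩ := window h1 hδ0 hε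
  filter_upwards [ev_log ε hε, eventually_ge_atTop (4 * X₀), eventually_ge_atTop (24 / δ),
    eventually_ge_atTop (12 : ℝ)] with Y ⟨hY1, hY2⟩ hY3 hY4 hY5
  intro E hE
  have hY0 : 0 < Y := by linarith
  obtain ⟨f, hf⟩ : ∃ f : ℕ × ℕ → ℕ, f = fun p => ⌈Real.log p.2⌉₊ := ⟨_, rfl⟩
  have hL : ∀ p ∈ E, Real.log p.2 ≤ 3 / 7 * Y := by
    intro p hp
    have hp2 := exc_pos (hE p hp).1
    rw [Real.log_le_iff_le_exp (by exact_mod_cast hp2)]
    refine le_trans ?_ (hE p hp).1.2.2.2.2.2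
    push_cast
    have : (0 : ℝ) ≤ p.1 := by positivity
    linarith
  have hfp : ∀ p ∈ E, Real.log p.2 ≤ (f p : ℝ) ∧ (f p : ℝ) < Real.log p.2 + 1 := by
    intro p hp
    rw [hf]
    refine ⟨Nat.le_ceil _, ?_⟩
    exact Nat.ceil_lt_add_one (by linarith [(hE p hp).2])
  have hmem : ∀ p ∈ E, f p ∈ range (⌊Y⌋₊ + 1) := by
    intro p hp
    rw [mem_range, Nat.lt_succ_iff]
    refine Nat.le_floor ?_
    linarith [(hfp p hp).2, hL p hp]
  have hcard : E.card = ∑ m ∈ range (⌊Y⌋₊ + 1), (E.filter (fun p => f p = m)).card :=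
    card_eq_sum_card_fiberwise hmem
  have hpart : ∀ m ∈ range (⌊Y⌋₊ + 1), ((E.filter (fun p => f p = m)).card : ℝ) ≤
      Real.exp ((1 - M) * Y + 78 +
        (1 + ε) * ((1 + ε) * √(24 * (3 * M - 1) * Y / Real.log Y))) := by
    intro m hm
    rcases (E.filter (fun p => f p = m)).eq_empty_or_nonempty with he | ⟨p0, hp0⟩
    · rw [he, card_empty, Nat.cast_zero]
      exact (Real.exp_pos _).le
    obtain ⟨hp0E, hp0m⟩ := mem_filter.1 hp0
    have hm1 : Y / 4 < (m : ℝ) := by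
      rw [← hp0m]
      exact (hE p0 hp0E).2.trans_le (hfp p0 hp0E).1
    have hm2 : (m : ℝ) ≤ 3 / 7 * Y + 1 := by
      rw [← hp0m]
      linarith [(hfp p0 hp0E).2, hL p0 hp0E]
    have hδm : 6 ≤ δ * m := by
      rw [div_le_iff₀ hδ0] at hY4
      nlinarith
    obtain ⟨c1, c2⟩ := gain_cond hM hM2 hδ0 hδ1 hδ2 hδm hm2
    have hb := hw m (gain M Y m) (E.filter (fun p => f p = m)) (by linarith) c1 c2 ?_
    · refine hb.trans (Real.exp_le_exp.2 ?_)
      refine (gain_bound hM hM2 hε.le hε1 hY0 (by linarith)).trans ?_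
      have hs : √(24 * (3 * M - 1) * Y / Real.log m) ≤
          (1 + ε) * √(24 * (3 * M - 1) * Y / Real.log Y) := by
        refine sqrt_log_le hε.le (by linarith) hY1 (hY2.trans ?_)
        refine mul_le_mul_of_nonneg_left ?_ (by linarith)
        exact Real.log_le_log (by linarith) hm1.le
      have := mul_le_mul_of_nonneg_left hs (by linarith : 0 ≤ 1 + ε)
      linarith
    · intro p hp
      obtain ⟨hpE, hpm⟩ := mem_filter.1 hp
      obtain ⟨⟨g1, g2, g3, g4, g5, g6⟩, g7⟩ := hE p hpE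
      obtain ⟨k1, k2⟩ := hfp p hpE
      rw [hpm] at k1 k2
      refine ⟨g1, g2, g3, by linarith, k1, ?_⟩
      have hp2 : 0 < p.2 := by omega
      have hp2R : (0 : ℝ) < p.2 := by exact_mod_cast hp2
      have hr0 : (0 : ℝ) < rad3 p := by exact_mod_cast rad3_pos p
      -- `R ≤ Y` and `M R ≤ L + log 2`
      have hR1 : Real.log (rad3 p : ℝ) ≤ Y := by
        rwa [Real.log_le_iff_le_exp hr0]
      have hR2 : M * Real.log (rad3 p : ℝ) ≤ Real.log p.2 + Real.log 2 := by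
        rw [← Real.log_rpow hr0, ← Real.log_mul hp2R.ne' (by norm_num)]
        refine Real.log_le_log (by positivity) (g5.trans ?_)
        have : (p.1 : ℝ) ≤ p.2 := by exact_mod_cast g2
        push_cast
        linarith
      have hlog2 : Real.log 2 ≤ 1 := by linarith [Real.log_two_lt_d9]
      obtain ⟨i, hi⟩ : ∃ i : ℝ, i = 1 / M := ⟨_, rfl⟩
      have hiM : i * M = 1 := by rw [hi]; field_simp
      have hR3 : Real.log (rad3 p : ℝ) ≤ i * Real.log p.2 + i * 1 := by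
        have h3 : i * (M * Real.log (rad3 p : ℝ)) ≤ i * (Real.log p.2 + 1) :=
          mul_le_mul_of_nonneg_left (by linarith) (by rw [hi]; positivity)
        have h4 : i * (M * Real.log (rad3 p : ℝ)) = Real.log (rad3 p : ℝ) := by
          rw [← mul_assoc, hiM, one_mul]
        linarith
      have hg : gain M Y m ≤ 3 * Real.log p.2 - Real.log (rad3 p : ℝ) := by
        unfold gain
        rw [← hi]
        rw [← hi] at i1 i2
        refine max_le ?_ (by linarith)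
        have h5 : (3 - i) * m ≤ (3 - i) * (Real.log p.2 + 1) :=
          mul_le_mul_of_nonneg_left k2.le (by linarith)
        linarith
      linarith
  rw [hcard]
  push_cast
  refine (sum_le_card_nsmul _ _ _ hpart).trans ?_
  rw [card_range, nsmul_eq_mul]
  refine mul_le_mul_of_nonneg_right ?_ (Real.exp_pos _).le
  push_cast
  linarith [Nat.floor_le hY0.le]

/-- **The upper bound.** -/
theorem upper (h1 : S_UPU ℚ 3 1) {M : ℝ} (A : ℝ) {ε : ℝ} (hM : 1 / 3 < M) (hM2 : M < 3 / 7)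
    (hε : 0 < ε) : ∀ᶠ Y : ℝ in atTop, ∀ E : Finset (ℕ × ℕ), (∀ p ∈ E, Exc M Y (A * Y) p) →
      (E.card : ℝ) ≤ Real.exp ((1 - M) * Y + (1 + ε) * √(24 * (3 * M - 1) * Y / Real.log Y)) := by
  classical
  obtain ⟨ε₁, hε₁⟩ : ∃ ε₁ : ℝ, ε₁ = min ε 1 / 4 := ⟨_, rfl⟩
  have he0 : 0 < ε₁ := by rw [hε₁]; have := lt_min hε one_pos; positivity
  have he1 : 4 * ε₁ ≤ ε := by rw [hε₁]; linarith [min_le_left ε 1]
  have he2 : ε₁ ≤ 1 := by rw [hε₁]; linarith [min_le_right ε 1]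
  obtain ⟨η, hη⟩ : ∃ η : ℝ, η = (3 / 7 - M) / 2 := ⟨_, rfl⟩
  have hη0 : 0 < η := by rw [hη]; linarith
  obtain ⟨C, hC, hlarge⟩ := large7 A η hη0 (by rw [hη]; linarith)
  have t1 : Tendsto (fun Y : ℝ => η * Y) atTop atTop := tendsto_id.const_mul_atTop hη0
  have t2 : Tendsto (fun Y : ℝ => (1 / 2 - M) * Y) atTop atTop :=
    tendsto_id.const_mul_atTop (by linarith)
  filter_upwards [mid_part h1 hM hM2 he0 he2, ev_small (c := 24 * (3 * M - 1)) (by linarith) ε₁ 78 he0,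
    t1.eventually_ge_atTop (Real.log C), t2.eventually_ge_atTop (Real.log 4),
    eventually_ge_atTop (1 : ℝ)] with Y hmid hsm hC1 h41 hY1
  intro E hE
  have hY0 : 0 < Y := by linarith
  obtain ⟨S, hS⟩ : ∃ S : ℝ, S = √(24 * (3 * M - 1) * Y / Real.log Y) := ⟨_, rfl⟩
  have hS0 : 0 ≤ S := by rw [hS]; exact Real.sqrt_nonneg _
  rw [← hS] at hsm ⊢
  have hmid' := fun E' => hmid E'
  rw [← hS] at hmid'
  obtain ⟨E3, hE3⟩ : ∃ E3 : Finset (ℕ × ℕ), E3 = E.filter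
    (fun p => Real.exp (3 / 7 * Y) ≤ ((p.1 + p.2 : ℕ) : ℝ)) := ⟨_, rfl⟩
  obtain ⟨E0, hE0⟩ : ∃ E0 : Finset (ℕ × ℕ), E0 = E.filter
    (fun p => Real.log p.2 ≤ Y / 4) := ⟨_, rfl⟩
  obtain ⟨E1, hE1⟩ : ∃ E1 : Finset (ℕ × ℕ), E1 = E.filter
    (fun p => ((p.1 + p.2 : ℕ) : ℝ) ≤ Real.exp (3 / 7 * Y) ∧ Y / 4 < Real.log p.2) := ⟨_, rfl⟩
  have hsub : E ⊆ E3 ∪ E0 ∪ E1 := by
    intro p hp
    rw [mem_union, mem_union, hE3, hE0, hE1, mem_filter, mem_filter, mem_filter]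
    rcases le_or_gt (Real.exp (3 / 7 * Y)) ((p.1 + p.2 : ℕ) : ℝ) with h | h
    · exact Or.inl (Or.inl ⟨hp, h⟩)
    · rcases le_or_gt (Real.log p.2) (Y / 4) with h' | h'
      · exact Or.inl (Or.inr ⟨hp, h'⟩)
      · exact Or.inr ⟨hp, h.le, h'⟩
  have hc : (E.card : ℝ) ≤ E3.card + E0.card + E1.card := by
    have h2 := (card_le_card hsub).trans ((card_union_le _ _).trans
      (Nat.add_le_add_right (card_union_le _ _) _))
    exact_mod_cast h2
  -- the three bounds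
  have b3 : (E3.card : ℝ) ≤ Real.exp ((1 - M) * Y) := by
    have hN : (1 : ℝ) ≤ Real.exp Y := Real.one_le_exp hY0.le
    have h2 := hlarge (Real.exp Y) hN E3 ?_
    · refine h2.trans ?_
      rw [← Real.exp_mul, ← Real.exp_log hC, ← Real.exp_add]
      refine Real.exp_le_exp.2 ?_
      have : (1 - M) * Y = Y * (4 / 7 + η) + η * Y := by rw [hη]; ring
      linarith
    · intro p hp
      rw [hE3, mem_filter] at hp
      obtain ⟨hpE, hp3⟩ := hp
      obtain ⟨g1, g2, g3, g4, g5, g6⟩ := hE p hpE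
      refine ⟨g1, by omega, g3, g4, ?_, ?_⟩
      · rw [← Real.exp_mul, mul_comm]
        exact hp3
      · rw [← Real.exp_mul, mul_comm]
        exact g6
  have b0 : (E0.card : ℝ) ≤ Real.exp ((1 - M) * Y) := by
    have h2 := small_part hY0.le E0 ?_
    · refine h2.trans ?_
      have : (4 : ℝ) = Real.exp (Real.log 4) := (Real.exp_log (by norm_num)).symm
      rw [this, ← Real.exp_add]
      refine Real.exp_le_exp.2 ?_
      linarith
    · intro p hp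
      rw [hE0, mem_filter] at hp
      exact ⟨(hE p hp.1).2.1, exc_pos (hE p hp.1), hp.2⟩
  have b1 : (E1.card : ℝ) ≤ (Y + 1) * Real.exp ((1 - M) * Y + 78 + (1 + ε₁) * ((1 + ε₁) * S)) := by
    refine hmid' E1 fun p hp => ?_
    rw [hE1, mem_filter] at hp
    obtain ⟨hpE, hp3, hp4⟩ := hp
    obtain ⟨g1, g2, g3, g4, g5, g6⟩ := hE p hpE
    exact ⟨⟨g1, g2, g3, g4, g5, hp3⟩, hp4⟩
  have b4 : Real.exp ((1 - M) * Y) ≤
      Real.exp ((1 - M) * Y + 78 + (1 + ε₁) * ((1 + ε₁) * S)) := by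
    refine Real.exp_le_exp.2 ?_
    have : 0 ≤ (1 + ε₁) * ((1 + ε₁) * S) := by positivity
    linarith
  have b5 : (E.card : ℝ) ≤ (Y + 5) * Real.exp ((1 - M) * Y + 78 + (1 + ε₁) * ((1 + ε₁) * S)) := by
    have := Real.exp_pos ((1 - M) * Y + 78 + (1 + ε₁) * ((1 + ε₁) * S))
    nlinarith
  refine b5.trans ?_
  have e5 : Y + 5 = Real.exp (Real.log (Y + 5)) := (Real.exp_log (by linarith)).symm
  rw [e5, ← Real.exp_add]
  refine Real.exp_le_exp.2 ?_
  have b6 : (1 + ε₁) * ((1 + ε₁) * S) ≤ (1 + 3 * ε₁) * S := by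
    have : (1 + ε₁) * (1 + ε₁) ≤ 1 + 3 * ε₁ := by nlinarith
    calc (1 + ε₁) * ((1 + ε₁) * S) = ((1 + ε₁) * (1 + ε₁)) * S := by ring
      _ ≤ _ := mul_le_mul_of_nonneg_right this hS0
  have b7 : (1 + 4 * ε₁) * S ≤ (1 + ε) * S := mul_le_mul_of_nonneg_right (by linarith) hS0
  linarith

end Pool.Agent.Run7.h151.FR
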